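import Pool.Agent.K3h53.LT.Stm

/-!
# Brick DEC (job 46 of helper53), proved by helper21
-/

set_option autoImplicit false

open Complex Metric Set MeasureTheory Filter Topology
open scoped ENNReal NNReal

namespace Pool.Agent.K3h53.LT

namespace Dec

/-- an integrable function is small somewhere on every left half line -/
theorem exists_small {f : ℝ → ℝ} (hf : Integrable f) (s : ℝ) {ε : ℝ}
    (hε : 0 < ε) : ∃ t ≤ s, f t < ε := by
  by_contra h
  push Not at h
  have h1 : IntegrableOn (fun _ : ℝ => ε) (Iic s) := by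
    refine Integrable.mono' (hf.integrableOn (s := Iic s)) aestronglyMeasurable_const ?_
    filter_upwards [ae_restrict_mem measurableSet_Iic] with t ht
    rw [Real.norm_of_nonneg hε.le]
    exact h t ht
  rw [integrableOn_const_iff] at h1
  rcases h1 with h1 | h1
  · simp at h1
    exact hε.ne' h1
  · simp at h1

theorem main (Q y y1 : ℝ → ℂ) (κ s0 : ℝ) (hS : Sol Q y y1) (hκ : 0 < κ)
    (hQ : ∃ C : ℝ, ∀ s, ‖Q s‖ ≤ C) (hQr : ∀ s ≤ s0, κ ^ 2 ≤ (Q s).re) :
    ∃ C : ℝ, ∀ s ≤ s0, ‖y s‖ ≤ C * Real.exp (κ / √2 * s) ∧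
      ‖y1 s‖ ≤ C * Real.exp (κ / √2 * s) := by
  obtain ⟨hy, hy1, hm, hm1, -⟩ := hS
  obtain ⟨CQ, hCQ⟩ := hQ
  set β : ℝ := √2 * κ with hβ
  have h2 : √2 * √2 = 2 := Real.mul_self_sqrt (by norm_num)
  have hβ0 : 0 < β := by positivity
  have hβ2 : β ^ 2 = 2 * κ ^ 2 := by rw [hβ, mul_pow, sq, h2]
  -- φ
  set φ : ℝ → ℝ := fun s => (y s).re ^ 2 + (y s).im ^ 2 with hφ
  set φ1 : ℝ → ℝ := fun s => 2 * ((y s).re * (y1 s).re + (y s).im * (y1 s).im) with hφ1
  set φ2 : ℝ → ℝ := fun s => 2 * ((y1 s).re ^ 2 + (y1 s).im ^ 2) +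
    2 * (Q s).re * ((y s).re ^ 2 + (y s).im ^ 2) with hφ2
  have hre : ∀ {f : ℝ → ℂ} {f' : ℂ} {s : ℝ}, HasDerivAt f f' s →
      HasDerivAt (fun s => (f s).re) f'.re s := fun h => by
    have := (Complex.reCLM.hasFDerivAt (x := _)).comp_hasDerivAt _ h
    exact this
  have him : ∀ {f : ℝ → ℂ} {f' : ℂ} {s : ℝ}, HasDerivAt f f' s →
      HasDerivAt (fun s => (f s).im) f'.im s := fun h => by
    have := (Complex.imCLM.hasFDerivAt (x := _)).comp_hasDerivAt _ h
    exact this
  have hdφ : ∀ s, HasDerivAt φ (φ1 s) s := by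
    intro s
    have h := ((hre (hy s)).pow 2).add ((him (hy s)).pow 2)
    refine h.congr_deriv ?_
    simp only [hφ1]
    push_cast
    ring
  have hdφ1 : ∀ s, HasDerivAt φ1 (φ2 s) s := by
    intro s
    have h := (((hre (hy s)).mul (hre (hy1 s))).add ((him (hy s)).mul (him (hy1 s)))).const_mul 2
    refine h.congr_deriv ?_
    simp only [hφ2, mul_re, mul_im]
    ring
  have hφ0 : ∀ s, 0 ≤ φ s := fun s => by positivity
  have hφn : ∀ s, φ s = ‖y s‖ ^ 2 := by
    intro s
    rw [← normSq_eq_norm_sq, normSq_apply]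
    simp only [hφ]
    ring
  have hφge : ∀ s ≤ s0, β ^ 2 * φ s ≤ φ2 s := by
    intro s hs
    have h1 := hQr s hs
    have h3 : 2 * κ ^ 2 * φ s ≤ 2 * (Q s).re * φ s :=
      mul_le_mul_of_nonneg_right (by linarith) (hφ0 s)
    rw [hβ2]
    simp only [hφ2]
    have h4 : 0 ≤ 2 * ((y1 s).re ^ 2 + (y1 s).im ^ 2) := by positivity
    simp only [hφ] at h3 ⊢
    linarith
  have hintφ : Integrable φ := by
    have := hm.integrable_norm_pow (by norm_num)
    refine this.congr (Eventually.of_forall fun s => ?_)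
    simp only [hφn]
  -- exponentials
  have hexp : ∀ (a s : ℝ), HasDerivAt (fun s => Real.exp (a * s)) (a * Real.exp (a * s)) s := by
    intro a s
    have := ((hasDerivAt_id s).const_mul a).exp
    simp only [id_eq, mul_one] at this
    refine this.congr_deriv ?_
    ring
  -- h is monotone
  set H : ℝ → ℝ := fun s => Real.exp (β * s) * (φ1 s - β * φ s) with hH
  have hdH : ∀ s, HasDerivAt H (Real.exp (β * s) * (φ2 s - β ^ 2 * φ s)) s := by
    intro s
    have h := (hexp β s).mul ((hdφ1 s).sub ((hdφ s).const_mul β))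
    refine h.congr_deriv ?_
    simp only [Pi.sub_apply]
    ring
  have hHmono : MonotoneOn H (Iic s0) := by
    refine monotoneOn_of_deriv_nonneg (convex_Iic s0)
      (fun s _ => (hdH s).continuousAt.continuousWithinAt)
      (fun s _ => (hdH s).differentiableAt.differentiableWithinAt) ?_
    intro s hs
    rw [interior_Iic] at hs
    rw [(hdH s).deriv]
    exact mul_nonneg (Real.exp_pos _).le (by linarith [hφge s (le_of_lt hs)])
  have hHnn : ∀ s ≤ s0, 0 ≤ H s := by
    intro s1 hs1
    by_contra hneg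
    push Not at hneg
    set c : ℝ := -H s1 with hc
    have hc0 : 0 < c := by linarith
    -- G is antitone
    set G : ℝ → ℝ := fun s => Real.exp (-β * s) * φ s - c / (2 * β) * Real.exp (-2 * β * s) with hG
    have hdG : ∀ s, HasDerivAt G (Real.exp (-β * s) * (φ1 s - β * φ s) +
        c * Real.exp (-2 * β * s)) s := by
      intro s
      have h := ((hexp (-β) s).mul (hdφ s)).sub ((hexp (-2 * β) s).const_mul (c / (2 * β)))
      refine h.congr_deriv ?_
      field_simp
      ring
    have hGanti : AntitoneOn G (Iic s1) := by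
      refine antitoneOn_of_deriv_nonpos (convex_Iic s1)
        (fun s _ => (hdG s).continuousAt.continuousWithinAt)
        (fun s _ => (hdG s).differentiableAt.differentiableWithinAt) ?_
      intro s hs
      rw [interior_Iic] at hs
      rw [(hdG s).deriv]
      have h3 : H s ≤ -c := by
        rw [hc, neg_neg]
        exact hHmono (show s ≤ s0 from (le_of_lt hs).trans hs1) hs1 (le_of_lt hs)
      have h4 : φ1 s - β * φ s = Real.exp (-β * s) * H s := by
        simp only [hH]
        rw [← mul_assoc, ← Real.exp_add]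
        simp
      have h5 : Real.exp (-2 * β * s) = Real.exp (-β * s) * Real.exp (-β * s) := by
        rw [← Real.exp_add]
        congr 1
        ring
      rw [h4, h5]
      have h6 : 0 < Real.exp (-β * s) * Real.exp (-β * s) := by positivity
      nlinarith
    -- φ is large near -∞
    have hlow : ∀ s ≤ s1, c / (2 * β) * Real.exp (-β * s) + G s1 * Real.exp (β * s) ≤ φ s := by
      intro s hs
      have h3 : G s1 ≤ G s := hGanti hs (mem_Iic.2 le_rfl) hs
      have h4 : φ s = Real.exp (β * s) * (Real.exp (-β * s) * φ s) := by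
        rw [← mul_assoc, ← Real.exp_add]
        simp
      have h5 : Real.exp (-β * s) * φ s = G s + c / (2 * β) * Real.exp (-2 * β * s) := by
        simp only [hG]; ring
      rw [h4, h5]
      have h6 : Real.exp (β * s) * Real.exp (-2 * β * s) = Real.exp (-β * s) := by
        rw [← Real.exp_add]; congr 1; ring
      have h7 : Real.exp (β * s) * (G s + c / (2 * β) * Real.exp (-2 * β * s)) =
          G s * Real.exp (β * s) + c / (2 * β) * Real.exp (-β * s) := by
        rw [mul_add, ← h6]; ring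
      rw [h7]
      have h8 : G s1 * Real.exp (β * s) ≤ G s * Real.exp (β * s) :=
        mul_le_mul_of_nonneg_right h3 (Real.exp_pos _).le
      linarith
    have htend : Tendsto (fun s : ℝ => c / (2 * β) * Real.exp (-β * s) + G s1 * Real.exp (β * s))
        atBot atTop := by
      have h3 : Tendsto (fun s : ℝ => β * s) atBot atBot :=
        tendsto_id.const_mul_atBot hβ0
      have h4 : Tendsto (fun s : ℝ => Real.exp (β * s)) atBot (𝓝 0) :=
        Real.tendsto_exp_atBot.comp h3
      have h5 : Tendsto (fun s : ℝ => -β * s) atBot atTop := by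
        have := tendsto_neg_atBot_atTop.comp h3
        refine this.congr (fun s => ?_)
        simp
      have h6 : Tendsto (fun s : ℝ => Real.exp (-β * s)) atBot atTop :=
        Real.tendsto_exp_atTop.comp h5
      have h7 : Tendsto (fun s : ℝ => c / (2 * β) * Real.exp (-β * s)) atBot atTop :=
        h6.const_mul_atTop (by positivity)
      have h8 := h4.const_mul (G s1)
      exact h7.atTop_add h8
    obtain ⟨s2, hs2⟩ := (htend.eventually_ge_atTop 1).exists_forall_of_atBot
    obtain ⟨t, ht, ht1⟩ := exists_small hintφ (min s1 s2) (ε := 1) one_pos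
    have h3 := hlow t (ht.trans (min_le_left _ _))
    have h4 := hs2 t (ht.trans (min_le_right _ _))
    linarith
  -- decay of φ
  set F : ℝ → ℝ := fun s => Real.exp (-β * s) * φ s with hF
  have hdF : ∀ s, HasDerivAt F (Real.exp (-β * s) * (φ1 s - β * φ s)) s := by
    intro s
    have h := (hexp (-β) s).mul (hdφ s)
    refine h.congr_deriv ?_
    ring
  have hFmono : MonotoneOn F (Iic s0) := by
    refine monotoneOn_of_deriv_nonneg (convex_Iic s0)
      (fun s _ => (hdF s).continuousAt.continuousWithinAt)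
      (fun s _ => (hdF s).differentiableAt.differentiableWithinAt) ?_
    intro s hs
    rw [interior_Iic] at hs
    rw [(hdF s).deriv]
    have h3 := hHnn s (le_of_lt hs)
    have h4 : φ1 s - β * φ s = Real.exp (-β * s) * H s := by
      simp only [hH]
      rw [← mul_assoc, ← Real.exp_add]
      simp
    rw [h4]
    positivity
  have hβκ : β / 2 = κ / √2 := by
    rw [hβ, div_eq_div_iff (by norm_num) (by positivity)]
    calc √2 * κ * √2 = (√2 * √2) * κ := by ring
      _ = κ * 2 := by rw [h2]; ring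
  have hyb : ∀ s ≤ s0, ‖y s‖ ≤ √(F s0) * Real.exp (β / 2 * s) := by
    intro s hs
    have h3 : F s ≤ F s0 := hFmono hs (mem_Iic.2 le_rfl) hs
    have h4 : ‖y s‖ ^ 2 ≤ F s0 * Real.exp (β * s) := by
      rw [← hφn]
      have h5 : φ s = Real.exp (β * s) * F s := by
        simp only [hF]
        rw [← mul_assoc, ← Real.exp_add]
        simp
      rw [h5, mul_comm]
      exact mul_le_mul_of_nonneg_right h3 (Real.exp_pos _).le
    have h5 : F s0 * Real.exp (β * s) = (√(F s0) * Real.exp (β / 2 * s)) ^ 2 := by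
      have hF0 : 0 ≤ F s0 := by
        simp only [hF]
        exact mul_nonneg (Real.exp_pos _).le (hφ0 _)
      rw [mul_pow, Real.sq_sqrt hF0, ← Real.exp_nat_mul]
      congr 2
      push_cast
      ring
    rw [h5] at h4
    exact (sq_le_sq₀ (norm_nonneg _) (by positivity)).1 h4
  -- decay of y1
  set A : ℝ := √(F s0) with hA
  have hA0 : 0 ≤ A := Real.sqrt_nonneg _
  have hCQ0 : 0 ≤ CQ := (norm_nonneg _).trans (hCQ 0)
  set K : ℝ := CQ * A * (2 / β) with hK
  have hK0 : 0 ≤ K := by positivity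
  have hy1b : ∀ s ≤ s0, ∀ t ≤ s, ‖y1 s - y1 t‖ ≤ K * Real.exp (β / 2 * s) := by
    intro s hs t ht
    have hB : ∀ x, HasDerivAt (fun x => K * (Real.exp (β / 2 * x) - Real.exp (β / 2 * t)))
        (CQ * A * Real.exp (β / 2 * x)) x := by
      intro x
      have h := ((hexp (β / 2) x).sub_const (Real.exp (β / 2 * t))).const_mul K
      refine h.congr_deriv ?_
      rw [hK]
      field_simp
    have h3 := image_norm_le_of_norm_deriv_right_le_deriv_boundary
      (f := fun x => y1 x - y1 t) (f' := fun x => Q x * y x) (a := t) (b := s)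
      (B := fun x => K * (Real.exp (β / 2 * x) - Real.exp (β / 2 * t)))
      (B' := fun x => CQ * A * Real.exp (β / 2 * x))
      (fun x _ => ((hy1 x).sub_const _).continuousAt.continuousWithinAt)
      (fun x _ => ((hy1 x).sub_const _).hasDerivWithinAt) (by simp)
      (fun x => hB x) ?_ (right_mem_Icc.2 ht)
    · refine h3.trans ?_
      apply mul_le_mul_of_nonneg_left _ hK0
      linarith [Real.exp_pos (β / 2 * t)]
    · intro x hx
      rw [norm_mul, mul_assoc]
      exact mul_le_mul (hCQ x) (hyb x (hx.2.le.trans hs)) (norm_nonneg _) hCQ0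
  have hint1 : Integrable (fun s => ‖y1 s‖ ^ 2) := by
    have := hm1.integrable_norm_pow (by norm_num)
    simpa using this
  refine ⟨max A (K + 1), fun s hs => ⟨?_, ?_⟩⟩
  · rw [← hβκ]
    exact (hyb s hs).trans (mul_le_mul_of_nonneg_right (le_max_left _ _) (Real.exp_pos _).le)
  · rw [← hβκ]
    obtain ⟨t, ht, ht1⟩ := exists_small hint1 s
      (ε := Real.exp (β / 2 * s) ^ 2) (by positivity)
    have h3 : ‖y1 t‖ ≤ Real.exp (β / 2 * s) :=
      ((sq_lt_sq₀ (norm_nonneg _) (Real.exp_pos _).le).1 ht1).le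
    have h4 := hy1b s hs t ht
    have h5 : ‖y1 s‖ ≤ ‖y1 s - y1 t‖ + ‖y1 t‖ := by
      calc ‖y1 s‖ = ‖(y1 s - y1 t) + y1 t‖ := by rw [sub_add_cancel]
        _ ≤ _ := norm_add_le _ _
    calc ‖y1 s‖ ≤ (K + 1) * Real.exp (β / 2 * s) := by linarith
      _ ≤ _ := mul_le_mul_of_nonneg_right (le_max_right _ _) (Real.exp_pos _).le

end Dec

theorem t_dec : St_dec := by
  intro Q y y1 κ s0 hS hκ hQ hQr
  obtain ⟨C, hC⟩ := Dec.main Q y y1 κ s0 hS hκ hQ hQr
  have hC0 : 0 ≤ C := by
    have h := (norm_nonneg _).trans (hC s0 le_rfl).1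
    by_contra hneg
    push Not at hneg
    have := mul_neg_of_neg_of_pos hneg (Real.exp_pos (κ / √2 * s0))
    linarith
  have hs2 : 7 / 10 ≤ 1 / √2 := by
    rw [div_le_div_iff₀ (by norm_num) (by positivity)]
    have h : √2 ≤ 10 / 7 := by
      rw [Real.sqrt_le_left (by norm_num)]
      norm_num
    linarith
  set δ : ℝ := 1 / √2 - 7 / 10 with hδ
  have hδ0 : 0 ≤ δ := by linarith
  have hexp : ∀ s ≤ s0, Real.exp (κ / √2 * s) ≤
      Real.exp (κ * δ * |s0|) * Real.exp (7 / 10 * κ * s) := by
    intro s hs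
    rw [← Real.exp_add, Real.exp_le_exp]
    have h1 : κ / √2 = κ * δ + 7 / 10 * κ := by rw [hδ]; ring
    rw [h1, add_mul]
    have h2 : κ * δ * s ≤ κ * δ * |s0| :=
      mul_le_mul_of_nonneg_left (hs.trans (le_abs_self _)) (by positivity)
    linarith
  refine ⟨C * Real.exp (κ * δ * |s0|), fun s hs => ?_⟩
  have h1 : C * Real.exp (κ / √2 * s) ≤
      C * Real.exp (κ * δ * |s0|) * Real.exp (7 / 10 * κ * s) := by
    rw [mul_assoc]
    exact mul_le_mul_of_nonneg_left (hexp s hs) hC0
  exact ⟨(hC s hs).1.trans h1, (hC s hs).2.trans h1⟩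

end Pool.Agent.K3h53.LT
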