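import Pool.Agent.K3h53.LT.Stm

/-!
# Brick OMEGA (job 43 of helper53), proved by helper21
-/

set_option autoImplicit false

open Complex Metric Set

namespace Pool.Agent.K3h53.LT

namespace Omega

/-- The map. -/
noncomputable def Psi (θ L : ℝ) (w : ℂ) : ℂ := θ + I / w - 4 / L * I * log w

theorem re_ge {θ : ℝ} {w : ℂ} (hw : ‖w - θ‖ ≤ 1) : θ - 1 ≤ w.re := by
  have h := (abs_re_le_norm (w - θ)).trans hw
  rw [sub_re, ofReal_re] at h
  linarith [(abs_le.1 h).1]

theorem norm_le {θ : ℝ} (hθ : 0 ≤ θ) {w : ℂ} (hw : ‖w - θ‖ ≤ 1) : ‖w‖ ≤ θ + 1 := by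
  have h : ‖w‖ ≤ ‖w - θ‖ + ‖(θ : ℂ)‖ := by
    calc ‖w‖ = ‖(w - θ) + θ‖ := by rw [sub_add_cancel]
      _ ≤ _ := norm_add_le _ _
  rw [norm_real, Real.norm_of_nonneg hθ] at h
  linarith

theorem log_bound {θ : ℝ} (hθ : 4 ≤ θ) {w : ℂ} (hw : ‖w - θ‖ ≤ 1) :
    ‖log w‖ ≤ θ + Real.pi := by
  have h1 := re_ge hw
  have h2 := norm_le (by linarith) hw
  have h3 : w.re ≤ ‖w‖ := (le_abs_self _).trans (abs_re_le_norm w)
  have h4 : (1 : ℝ) ≤ ‖w‖ := by linarith
  have h5 : ‖log w‖ ≤ |(log w).re| + |(log w).im| := norm_le_abs_re_add_abs_im _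
  rw [log_re, log_im] at h5
  have h6 : 0 ≤ Real.log ‖w‖ := Real.log_nonneg h4
  have h7 : Real.log ‖w‖ ≤ θ := by
    have := Real.log_le_sub_one_of_pos (show (0 : ℝ) < ‖w‖ by linarith)
    linarith
  rw [abs_of_nonneg h6] at h5
  have h8 := abs_arg_le_pi w
  linarith

theorem hasDerivAt_Psi (θ L : ℝ) {w : ℂ} (hw : 0 < w.re) :
    HasDerivAt (Psi θ L) (-I / w ^ 2 - 4 / L * I * w⁻¹) w := by
  have hw0 : w ≠ 0 := by
    intro h
    rw [h] at hw
    simp at hw
  have hs : w ∈ slitPlane := Or.inl hw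
  have h1 : HasDerivAt (fun w : ℂ => I / w) (-I / w ^ 2) w := by
    have := (hasDerivAt_inv hw0).const_mul I
    simpa [div_eq_mul_inv] using this
  have h2 := (Complex.hasDerivAt_log hs).const_mul (4 / (L : ℂ) * I)
  have h3 := ((hasDerivAt_const w (θ : ℂ)).add h1).sub h2
  rw [zero_add] at h3
  exact h3

theorem exists_fixed (θ L : ℝ) (hθ : 4 ≤ θ) (hL : 8 * (θ + 1) ^ 2 ≤ L) :
    ∃ w : ℂ, ‖w - θ‖ ≤ 1 ∧ w = Psi θ L w := by
  have hLpos : 0 < L := by nlinarith
  have h4L : 4 / L ≤ 1 / (2 * (θ + 1) ^ 2) := by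
    rw [div_le_div_iff₀ hLpos (by positivity)]
    linarith
  have h4L0 : 0 < 4 / L := by positivity
  have h4L' : 4 / L ≤ 1 / 50 := by
    refine h4L.trans ?_
    apply one_div_le_one_div_of_le (by norm_num)
    nlinarith
  have hnorm : ‖(4 / (L : ℂ))‖ = 4 / L := by
    rw [norm_div, norm_real, Real.norm_of_nonneg hLpos.le]
    norm_num
  -- maps to
  have hmaps : MapsTo (Psi θ L) (closedBall (θ : ℂ) 1) (closedBall (θ : ℂ) 1) := by
    intro w hw
    rw [mem_closedBall, dist_eq_norm] at hw ⊢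
    have h1 := re_ge hw
    have h3 : w.re ≤ ‖w‖ := (le_abs_self _).trans (abs_re_le_norm w)
    have h4 : (3 : ℝ) ≤ ‖w‖ := by linarith
    have h5 := log_bound hθ hw
    have h6 : Psi θ L w - θ = I / w - 4 / L * I * log w := by rw [Psi]; ring
    rw [h6]
    have h7 : ‖I / w‖ ≤ 1 / 3 := by
      rw [norm_div, norm_I]
      exact one_div_le_one_div_of_le (by norm_num) h4
    have h8 : ‖(4 / (L : ℂ)) * I * log w‖ ≤ 1 / 6 := by
      rw [norm_mul, norm_mul, norm_I, mul_one, hnorm]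
      have h9 : 4 / L * ‖log w‖ ≤ 1 / (2 * (θ + 1) ^ 2) * (θ + Real.pi) := by
        apply mul_le_mul h4L h5 (norm_nonneg _) (by positivity)
      refine h9.trans ?_
      rw [div_mul_eq_mul_div, one_mul, div_le_div_iff₀ (by positivity) (by norm_num)]
      have := Real.pi_lt_d2
      nlinarith
    calc ‖I / w - 4 / L * I * log w‖ ≤ ‖I / w‖ + ‖(4 / (L : ℂ)) * I * log w‖ := norm_sub_le _ _
      _ ≤ 1 := by linarith
  -- contraction
  have hlip : ∀ w ∈ closedBall (θ : ℂ) 1, ∀ w' ∈ closedBall (θ : ℂ) 1,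
      ‖Psi θ L w' - Psi θ L w‖ ≤ 1 / 2 * ‖w' - w‖ := by
    intro w hw w' hw'
    refine (convex_closedBall (θ : ℂ) 1).norm_image_sub_le_of_norm_hasDerivWithin_le
      (f' := fun w => -I / w ^ 2 - 4 / L * I * w⁻¹) ?_ ?_ hw hw'
    · intro x hx
      rw [mem_closedBall, dist_eq_norm] at hx
      have := re_ge hx
      exact (hasDerivAt_Psi θ L (by linarith)).hasDerivWithinAt
    · intro x hx
      rw [mem_closedBall, dist_eq_norm] at hx
      have h1 := re_ge hx
      have h3 : x.re ≤ ‖x‖ := (le_abs_self _).trans (abs_re_le_norm x)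
      have h4 : (3 : ℝ) ≤ ‖x‖ := by linarith
      have h5 : ‖-I / x ^ 2‖ ≤ 1 / 9 := by
        rw [norm_div, norm_neg, norm_I, norm_pow]
        apply one_div_le_one_div_of_le (by norm_num)
        nlinarith
      have h6 : ‖4 / (L : ℂ) * I * x⁻¹‖ ≤ 1 / 50 * (1 / 3) := by
        rw [norm_mul, norm_mul, norm_I, mul_one, hnorm, norm_inv]
        apply mul_le_mul h4L' ?_ (by positivity) (by norm_num)
        rw [← one_div]
        exact one_div_le_one_div_of_le (by norm_num) h4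
      calc ‖-I / x ^ 2 - 4 / L * I * x⁻¹‖ ≤ ‖-I / x ^ 2‖ + ‖4 / (L : ℂ) * I * x⁻¹‖ :=
            norm_sub_le _ _
        _ ≤ 1 / 2 := by linarith
  have hcomp : IsComplete (closedBall (θ : ℂ) 1) := isClosed_closedBall.isComplete
  have hcon : ContractingWith (1 / 2 : NNReal) (hmaps.restrict (Psi θ L) _ _) := by
    refine ⟨by
      rw [← NNReal.coe_lt_coe]
      norm_num, ?_⟩
    refine LipschitzWith.of_dist_le_mul ?_
    rintro ⟨x, hx⟩ ⟨y, hy⟩
    have := hlip y hy x hx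
    rw [Subtype.dist_eq, Subtype.dist_eq, MapsTo.val_restrict_apply, MapsTo.val_restrict_apply,
      dist_eq_norm, dist_eq_norm]
    simpa using this
  obtain ⟨w, hw, hfix, -, -⟩ := ContractingWith.exists_fixedPoint' hcomp hmaps hcon
    (x := (θ : ℂ)) (mem_closedBall_self (by norm_num)) (edist_ne_top _ _)
  rw [mem_closedBall, dist_eq_norm] at hw
  exact ⟨w, hw, hfix.symm⟩

theorem fixed_im (θ L : ℝ) (hθ : 4 ≤ θ) (hL : 8 * (θ + 1) ^ 2 ≤ L) (w : ℂ) (hw : ‖w - θ‖ ≤ 1)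
    (h : w = Psi θ L w) : 0 < w.im := by
  have hLpos : 0 < L := by nlinarith
  have h4L : 4 / L ≤ 1 / (2 * (θ + 1) ^ 2) := by
    rw [div_le_div_iff₀ hLpos (by positivity)]
    linarith
  have h4L0 : 0 < 4 / L := by positivity
  have h1 := re_ge hw
  have h2 := norm_le (by linarith) hw
  have h3 : w.re ≤ ‖w‖ := (le_abs_self _).trans (abs_re_le_norm w)
  have h4 : (0 : ℝ) < ‖w‖ := by linarith
  have him : w.im = w.re / ‖w‖ ^ 2 - 4 / L * Real.log ‖w‖ := by
    have h5 : (I / w).im = w.re / ‖w‖ ^ 2 := by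
      rw [div_im, I_re, I_im, normSq_eq_norm_sq]
      ring
    have h6 : (4 / (L : ℂ) * I * log w).im = 4 / L * Real.log ‖w‖ := by
      have h7 : (4 / (L : ℂ) * I * log w) = ((4 / L : ℝ) : ℂ) * (I * log w) := by
        push_cast
        ring
      rw [h7, im_ofReal_mul, I_mul_im, log_re]
    calc w.im = (Psi θ L w).im := by rw [← h]
      _ = _ := by
        rw [Psi, sub_im, add_im, ofReal_im, h5, h6]
        ring
  rw [him]
  have h5 : (θ - 1) / (θ + 1) ^ 2 ≤ w.re / ‖w‖ ^ 2 := by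
    apply div_le_div₀ (by linarith) h1 (by positivity)
    nlinarith
  have h6 : Real.log ‖w‖ ≤ θ := by
    have := Real.log_le_sub_one_of_pos h4
    linarith
  have h7 : 4 / L * Real.log ‖w‖ ≤ 1 / (2 * (θ + 1) ^ 2) * θ := by
    rcases le_or_gt 0 (Real.log ‖w‖) with h8 | h8
    · exact mul_le_mul h4L h6 h8 (by positivity)
    · have h9 : 4 / L * Real.log ‖w‖ ≤ 0 := mul_nonpos_of_nonneg_of_nonpos h4L0.le h8.le
      refine h9.trans ?_
      have : 0 ≤ θ := by linarith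
      positivity
  have h8 : 1 / (2 * (θ + 1) ^ 2) * θ < (θ - 1) / (θ + 1) ^ 2 := by
    rw [div_mul_eq_mul_div, one_mul, div_lt_div_iff₀ (by positivity) (by positivity)]
    have : 0 < (θ + 1) ^ 2 := by positivity
    nlinarith
  linarith

theorem mu_inj (w w' : ℂ) (h1 : 1 < ‖w‖) (h1' : 1 < ‖w'‖) (h2 : 0 < w.re) (h2' : 0 < w'.re)
    (h3 : 0 < w.im) (h3' : 0 < w'.im) (h : mu w = mu w') : w = w' := by
  have hw0 : w ≠ 0 := by
    intro h
    rw [h] at h2
    simp at h2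
  have hw0' : w' ≠ 0 := by
    intro h
    rw [h] at h2'
    simp at h2'
  have key : ∀ z : ℂ, 1 < ‖z‖ → 0 < z.re → 0 < z.im → 0 < ((z + I / z) / 2).re := by
    intro z hz hr hi
    have h4 : ((z + I / z) / 2).re = (z.re + z.im / ‖z‖ ^ 2) / 2 := by
      have h5 : (I / z).re = z.im / ‖z‖ ^ 2 := by
        rw [div_re, I_re, I_im, normSq_eq_norm_sq]
        ring
      have h6 : ((z + I / z) / 2).re = (z + I / z).re / 2 := by
        rw [show (2 : ℂ) = ((2 : ℝ) : ℂ) by norm_num, div_ofReal_re]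
      rw [h6, add_re, h5]
    rw [h4]
    have : 0 < ‖z‖ := by linarith
    positivity
  have k1 := key w h1 h2 h3
  have k2 := key w' h1' h2' h3'
  rw [mu, mu] at h
  rcases sq_eq_sq_iff_eq_or_eq_neg.1 h with h4 | h4
  · have h5 : w + I / w = w' + I / w' := by
      have := congrArg (fun z : ℂ => z * 2) h4
      simpa using this
    have h6 : (w - w') * (w * w' - I) = 0 := by
      field_simp at h5
      linear_combination h5
    rcases mul_eq_zero.1 h6 with h7 | h7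
    · exact sub_eq_zero.1 h7
    · exfalso
      have h8 : w * w' = I := sub_eq_zero.1 h7
      have h9 := congrArg norm h8
      rw [norm_mul, norm_I] at h9
      nlinarith
  · exfalso
    have h5 := congrArg Complex.re h4
    rw [neg_re] at h5
    linarith

end Omega

theorem t_omega : St_omega := by
  refine ⟨?_, Omega.mu_inj⟩
  intro θ L hθ hL
  obtain ⟨w, hw, h⟩ := Omega.exists_fixed θ L hθ hL
  exact ⟨w, hw, h, Omega.fixed_im θ L hθ hL w hw h⟩

end Pool.Agent.K3h53.LT
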